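import Mathlib
import Pool.Agent.Helper993.HeisDet
import Pool.Agent.Helper993.FKDef
import Pool.Agent.Helper993.FKFinite

open Pool.Agent.Helper993.FK Pool.Agent.Helper993.HeisDet

namespace Pool.Agent.Results.MP_0078c6_gt.DetApproxFails

theorem coeff_cast (i : ℕ) (x : Heis ℤ ⧸ chain i) :
    (((MonoidAlgebra.mapDomain (QuotientGroup.mk' (chain i)) (elt ℚ 10)).coeff x : ℚ) : ℂ)
      = (MonoidAlgebra.mapDomain (QuotientGroup.mk' (chain i)) (elt ℂ ((10 : ℕ) : ℂ))).coeff x := by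
  rw [elt_coeff, elt_coeff]
  split_ifs <;> norm_num

theorem fkDet_chain (i : ℕ) :
    fkDet (rMul ((Matrix.of fun _ _ => elt ℚ 10 :
      Matrix (Fin 1) (Fin 1) (MonoidAlgebra ℚ (Heis ℤ))).map
        (MonoidAlgebra.mapDomain (QuotientGroup.mk' (chain i)))))
      = Real.exp (Real.log ‖Dseq i‖ / (Nat.card (Heis ℤ ⧸ chain i) : ℝ)) := by
  classical
  have : Fintype (Heis ℤ ⧸ chain i) := Fintype.ofFinite _
  have h1 : ((Matrix.of fun _ _ => elt ℚ 10 :
      Matrix (Fin 1) (Fin 1) (MonoidAlgebra ℚ (Heis ℤ))).map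
        (MonoidAlgebra.mapDomain (QuotientGroup.mk' (chain i))))
      = Matrix.of fun _ _ => MonoidAlgebra.mapDomain (QuotientGroup.mk' (chain i)) (elt ℚ 10) := rfl
  have h2 : (Matrix.of fun x y : Heis ℤ ⧸ chain i =>
      (((MonoidAlgebra.mapDomain (QuotientGroup.mk' (chain i)) (elt ℚ 10)).coeff (x⁻¹ * y) : ℚ) : ℂ)).det
      = Dseq i := by
    rw [← det_chain i]
    congr 1
    ext x y
    simp only [Matrix.of_apply, gmat, coeff_cast]
  have h3 : Dseq i ≠ 0 := by
    intro h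
    have := Dseq_norm_ge i
    rw [h, norm_zero] at this
    linarith
  rw [h1, fkDet_finite _ (by rw [h2]; exact h3), h2]

/-- Not every group has property (FK-approx). -/
theorem result : ¬ ∀ (G : Type) [Group G], FKApprox G := by
  intro h
  have h1 := h (Heis ℤ) chain chain_zero chain_anti chain_inf 1 1 le_rfl le_rfl
    (Matrix.of fun _ _ => elt ℚ 10)
  simp only [fkDet_chain] at h1
  have hpos : 0 < fkDet (rMul (Matrix.of fun _ _ => elt ℚ 10 :
      Matrix (Fin 1) (Fin 1) (MonoidAlgebra ℚ (Heis ℤ)))) := by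
    have h2 : ∀ i, (1 : ℝ) ≤ Real.exp (Real.log ‖Dseq i‖ / (Nat.card (Heis ℤ ⧸ chain i) : ℝ)) := by
      intro i
      apply Real.one_le_exp
      exact div_nonneg (Real.log_nonneg (Dseq_norm_ge i)) (Nat.cast_nonneg _)
    exact lt_of_lt_of_le one_pos (ge_of_tendsto' h1 h2)
  have h3 := (Real.continuousAt_log hpos.ne').tendsto.comp h1
  simp only [Function.comp_def, Real.log_exp] at h3
  exact no_limit _ h3

end Pool.Agent.Results.MP_0078c6_gt.DetApproxFails
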